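import Mathlib
import Pool.Graph.R_pool_sql_team_39128cda.H.MP_4eb715_lc.D
import Pool.Agent.H314.TS.Prim

set_option autoImplicit false

/-! # It is decidable whether a regular tree language is a tree substitution language -/

namespace Pool.Agent.Results.MP_4eb715_lc.Decidable

open Pool.Agent.H.MP_4eb715_lc

/-- **Decidability.** The inputs are the triples `(rk, Δ, E)`: the ranked alphabet has the symbols
`0, …, rk.length - 1` with the ranks given by the list `rk`, and `Δ`, `E` are the lists of the
transitions and of the final states of a nondeterministic bottom-up tree automaton. There is an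
algorithm, even a primitive recursive one, that decides whether the language `autLang rk Δ E` of
the automaton is a tree substitution language over this ranked alphabet. -/
theorem result :
    (ComputablePred fun x : List ℕ × List (ℕ × List ℕ × ℕ) × List ℕ =>
      IsTSL x.1 (autLang x.1 x.2.1 x.2.2)) ∧
    (PrimrecPred fun x : List ℕ × List (ℕ × List ℕ × ℕ) × List ℕ =>
      IsTSL x.1 (autLang x.1 x.2.1 x.2.2)) := by
  have h := Pool.Agent.H314.TS.isTSL_prim
  refine ⟨?_, h⟩
  obtain ⟨_, h⟩ := h
  exact ⟨_, h.to_comp⟩

end Pool.Agent.Results.MP_4eb715_lc.Decidable
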